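import Pool.Agent.Y972.ZF.Split

/-!
# Project ZF: the alternating sum of the graph polynomials
-/

set_option autoImplicit false
set_option linter.all false

namespace Pool.Agent.Y972.ZF

open Finset Pool.Agent.H604R2.LEC Pool.Agent.Y819.ZF

theorem PR_congr {n : ℕ} {K : Type} [CommRing K] {T T' : Fin n → Fin n → Prop}
    (h : ∀ a b, T a b ↔ T' a b) (s : Fin n → K) : PR T s = PR T' s := by
  have : T = T' := by
    funext a b
    exact propext (h a b)
  rw [this]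

theorem split' (h1 : S_SPLIT) {n : ℕ} (T : Fin n → Fin n → Prop) (hT : ∀ a b, T a b → T b a)
    (x : Fin n) (W : Finset (Fin n)) (hW : ∀ w, w ∈ W ↔ T x w ∧ w ≠ x)
    (T' : Fin n → Fin n → Prop) (hT' : ∀ a b, T' a b ↔ T a b ∧ a ≠ x ∧ b ≠ x) :
    ∃ δ : ℤ, (δ = 1 ∨ δ = -1) ∧ ∀ (K : Type) [CommRing K] (s : Fin n → K),
      PR T s = (δ : K) * (∏ w ∈ W, (s x - s w)) * PR T' s := by
  obtain ⟨δ, hδ, h⟩ := h1 n T hT x
  refine ⟨δ, hδ, fun K _ s => ?_⟩
  obtain ⟨S, hS, h2⟩ : ∃ S : Finset (Fin n), (∀ w, w ∈ S ↔ T x w ∧ w ≠ x) ∧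
      PR T s = (δ : K) * (∏ w ∈ S, (s x - s w)) * PR (fun a b => T a b ∧ a ≠ x ∧ b ≠ x) s :=
    ⟨_, fun w => by rw [mem_filter_any]; simp, h K s⟩
  have hSW : S = W := by
    ext w
    rw [hS, hW]
  rw [h2, hSW, PR_congr hT' s]

theorem min_max_cases {n : ℕ} {a b c d : Fin n} (h1 : min a b = min c d)
    (h2 : max a b = max c d) : (a = c ∧ b = d) ∨ (a = d ∧ b = c) := by
  rcases le_total a b with h | h <;> rcases le_total c d with h' | h' <;>
    simp only [min_eq_left, min_eq_right, max_eq_left, max_eq_right, h, h'] at h1 h2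
  · exact Or.inl ⟨h1, h2⟩
  · exact Or.inr ⟨h1, h2⟩
  · exact Or.inr ⟨h2, h1⟩
  · exact Or.inl ⟨h2, h1⟩

/-- the image of an edge -/
def em {n f : ℕ} (h : Fin f → Fin n) (hinj : Function.Injective h) (e : Ed f) : Ed n :=
  ⟨(min (h e.1.1) (h e.1.2), max (h e.1.1) (h e.1.2)),
    min_lt_max.2 (fun hh => e.2.ne (hinj hh))⟩

theorem edge {n f : ℕ} (h : Fin f → Fin n) (hinj : Function.Injective h)
    (T : Fin n → Fin n → Prop) (hT : ∀ a b, T a b → T b a)
    (hr : ∀ a b, T a b → (∃ c, h c = a) ∧ ∃ c, h c = b)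
    (E : Finset (Ed f)) (hE : ∀ e, e ∈ E ↔ T (h e.1.1) (h e.1.2)) :
    ∃ ε : ℤ, (ε = 1 ∨ ε = -1) ∧ ∀ (K : Type) [CommRing K] (s : Fin n → K),
      PR T s = (ε : K) * ∏ e ∈ E, (s (h e.1.1) - s (h e.1.2)) := by
  classical
  refine ⟨∏ e ∈ E, (if h e.1.2 < h e.1.1 then -1 else 1), ?_, ?_⟩
  · refine Finset.prod_induction (fun e : Ed f => if h e.1.2 < h e.1.1 then (-1 : ℤ) else 1)
      (fun d => d = 1 ∨ d = -1) ?_ (Or.inl rfl) ?_
    · rintro a b (rfl | rfl) (rfl | rfl) <;> simp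
    · intro e _
      by_cases hw : h e.1.2 < h e.1.1 <;> simp [hw]
  · intro K _ s
    have hε : (((∏ e ∈ E, (if h e.1.2 < h e.1.1 then (-1 : ℤ) else 1) : ℤ)) : K) =
        ∏ e ∈ E, (if h e.1.2 < h e.1.1 then (-1 : K) else 1) := by
      rw [Int.cast_prod]
      refine prod_congr rfl fun w _ => ?_
      split_ifs <;> simp
    rw [hε, ← prod_mul_distrib]
    unfold PR
    symm
    refine Finset.prod_bij (fun e _ => em h hinj e) ?_ ?_ ?_ ?_
    · intro e he
      rw [hE] at he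
      rw [mem_filter_any]
      refine ⟨mem_univ _, ?_⟩
      show T (min (h e.1.1) (h e.1.2)) (max (h e.1.1) (h e.1.2))
      rcases le_total (h e.1.1) (h e.1.2) with h' | h'
      · rw [min_eq_left h', max_eq_right h']
        exact he
      · rw [min_eq_right h', max_eq_left h']
        exact hT _ _ he
    · intro e he e' he' hee
      have h3 : min (h e.1.1) (h e.1.2) = min (h e'.1.1) (h e'.1.2) :=
        congrArg (fun z : Ed n => z.1.1) hee
      have h4 : max (h e.1.1) (h e.1.2) = max (h e'.1.1) (h e'.1.2) :=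
        congrArg (fun z : Ed n => z.1.2) hee
      rcases min_max_cases h3 h4 with ⟨h5, h6⟩ | ⟨h5, h6⟩
      · exact Subtype.ext (Prod.ext (hinj h5) (hinj h6))
      · have h7 := e.2
        have h8 := e'.2
        have h9 := hinj h5
        have h10 := hinj h6
        rw [h9, h10] at h7
        exact absurd h7 (lt_asymm h8)
    · intro e' he'
      rw [mem_filter_any] at he'
      obtain ⟨⟨c, hc⟩, ⟨c', hc'⟩⟩ := hr _ _ he'.2
      have hlt := e'.2
      have hne : c ≠ c' := by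
        rintro rfl
        rw [← hc, ← hc'] at hlt
        exact lt_irrefl _ hlt
      rcases lt_or_gt_of_ne hne with h' | h'
      · refine ⟨⟨(c, c'), h'⟩, ?_, ?_⟩
        · rw [hE]
          simp only
          rw [hc, hc']
          exact he'.2
        · apply Subtype.ext
          show (min (h c) (h c'), max (h c) (h c')) = e'.1
          rw [hc, hc', min_eq_left hlt.le, max_eq_right hlt.le]
      · refine ⟨⟨(c', c), h'⟩, ?_, ?_⟩
        · rw [hE]
          simp only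
          rw [hc, hc']
          exact hT _ _ he'.2
        · apply Subtype.ext
          show (min (h c') (h c), max (h c') (h c)) = e'.1
          rw [hc, hc', min_eq_right hlt.le, max_eq_left hlt.le]
    · intro e he
      show (if h e.1.2 < h e.1.1 then (-1 : K) else 1) * (s (h e.1.1) - s (h e.1.2)) =
        s (min (h e.1.1) (h e.1.2)) - s (max (h e.1.1) (h e.1.2))
      split_ifs with h'
      · rw [min_eq_right h'.le, max_eq_left h'.le]
        ring
      · rw [min_eq_left (not_lt.1 h'), max_eq_right (not_lt.1 h')]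
        ring

theorem fix_maps {n : ℕ} {Z : Finset (Fin n)} {σ : Equiv.Perm (Fin n)}
    (hσ : ∀ v, v ∉ Z → σ v = v) {v : Fin n} (hv : v ∈ Z) : σ v ∈ Z := by
  by_contra h
  have h1 := hσ _ h
  have h2 := σ.injective h1
  rw [h2] at h
  exact h hv

theorem sq_one {δ : ℤ} (h : δ = 1 ∨ δ = -1) (K : Type) [CommRing K] :
    (δ : K) * (δ : K) = 1 := by
  rcases h with rfl | rfl <;> simp

theorem mul_sign {a b : ℤ} (ha : a = 1 ∨ a = -1) (hb : b = 1 ∨ b = -1) :
    a * b = 1 ∨ a * b = -1 := by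
  rcases ha with rfl | rfl <;> rcases hb with rfl | rfl <;> simp

end Pool.Agent.Y972.ZF

namespace Pool.Agent.Y972.ZF

open Finset Pool.Agent.H604R2.LEC Pool.Agent.Y819.ZF

/-- the relation of `S_IDB` -/
def CT {n f : ℕ} (F : SimpleGraph (Fin n)) (Z : Finset (Fin n)) (h : Fin f → Fin n)
    (a b : Fin n) : Prop := Cur Z h a ∧ Cur Z h b ∧ ¬ F.Adj a b

theorem CT_symm {n f : ℕ} (F : SimpleGraph (Fin n)) (Z : Finset (Fin n)) (h : Fin f → Fin n)
    (a b : Fin n) (hab : CT F Z h a b) : CT F Z h b a :=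
  ⟨hab.2.1, hab.1, fun hh => hab.2.2 hh.symm⟩

theorem cur_step {n f : ℕ} {Z : Finset (Fin n)} {h : Fin f → Fin n} (hinj : Function.Injective h)
    (hZ : ∀ c, h c ∉ Z) (c : Fin f) {u : Fin n} (hu : u ∈ Z) (w : Fin n) :
    Cur (Z.erase u) (Function.update h c u) w ↔ Cur Z h w ∧ w ≠ h c := by
  constructor
  · rintro (hw | ⟨c', hc'⟩)
    · have hw' := mem_of_mem_erase hw
      exact ⟨Or.inl hw', fun hh => hZ c (hh ▸ hw')⟩
    · by_cases hcc : c' = c
      · subst hcc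
        rw [Function.update_self] at hc'
        subst hc'
        exact ⟨Or.inl hu, fun hh => hZ c' (hh ▸ hu)⟩
      · rw [Function.update_of_ne hcc] at hc'
        exact ⟨Or.inr ⟨c', hc'⟩, fun hh => hcc (hinj (hc'.trans hh))⟩
  · rintro ⟨hw | ⟨c', hc'⟩, hne⟩
    · by_cases hwu : w = u
      · exact Or.inr ⟨c, by rw [Function.update_self, hwu]⟩
      · exact Or.inl (mem_erase.2 ⟨hwu, hw⟩)
    · have hcc : c' ≠ c := by
        rintro rfl
        exact hne hc'.symm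
      exact Or.inr ⟨c', by rw [Function.update_of_ne hcc, hc']⟩

theorem inj_step {n f : ℕ} {Z : Finset (Fin n)} {h : Fin f → Fin n} (hinj : Function.Injective h)
    (hZ : ∀ c, h c ∉ Z) (c : Fin f) {u : Fin n} (hu : u ∈ Z) :
    Function.Injective (Function.update h c u) := by
  intro a b hab
  by_cases ha : a = c <;> by_cases hb : b = c
  · rw [ha, hb]
  · rw [ha, Function.update_self, Function.update_of_ne hb] at hab
    exact absurd (hab ▸ hu) (hZ b)
  · rw [hb, Function.update_self, Function.update_of_ne ha] at hab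
    exact absurd (hab ▸ hu) (hZ a)
  · rw [Function.update_of_ne ha, Function.update_of_ne hb] at hab
    exact hinj hab

theorem notMem_step {n f : ℕ} {Z : Finset (Fin n)} {h : Fin f → Fin n}
    (hZ : ∀ c, h c ∉ Z) (c : Fin f) {u : Fin n} (c' : Fin f) :
    Function.update h c u c' ∉ Z.erase u := by
  by_cases hcc : c' = c
  · rw [hcc, Function.update_self]
    exact notMem_erase u Z
  · rw [Function.update_of_ne hcc]
    exact fun hh => hZ c' (mem_of_mem_erase hh)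

theorem codeg_eq {n f f' : ℕ} {F : SimpleGraph (Fin n)} {Z Z' : Finset (Fin n)} {h : Fin f → Fin n}
    {h' : Fin f' → Fin n} {v : Fin n}
    (hh : ∀ w, (Cur Z h w ∧ w ≠ v ∧ ¬ F.Adj v w) ↔ (Cur Z' h' w ∧ w ≠ v ∧ ¬ F.Adj v w)) :
    codeg F Z h v = codeg F Z' h' v := by
  unfold codeg
  congr 1
  ext w
  rw [mem_filter_any, mem_filter_any, hh w]

theorem codeg_u {n f : ℕ} {F : SimpleGraph (Fin n)} {Z : Finset (Fin n)} {h : Fin f → Fin n}
    (hinj : Function.Injective h)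
    (hZ : ∀ c, h c ∉ Z) (c : Fin f) {u : Fin n} (hu : u ∈ Z) (hadj : F.Adj (h c) u) :
    codeg F (Z.erase u) (Function.update h c u) u = codeg F Z h u := by
  apply codeg_eq
  intro w
  rw [cur_step hinj hZ c hu]
  constructor
  · rintro ⟨h1, h2⟩
    exact ⟨h1.1, h2⟩
  · rintro ⟨h1, h2, h3⟩
    exact ⟨⟨h1, fun hh => h3 (hh ▸ hadj.symm)⟩, h2, h3⟩

theorem codeg_v {n f : ℕ} {F : SimpleGraph (Fin n)} {Z : Finset (Fin n)} {h : Fin f → Fin n}
    (hinj : Function.Injective h)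
    (hZ : ∀ c, h c ∉ Z) (c : Fin f) {u : Fin n} (hu : u ∈ Z)
    (huniq : ∀ z ∈ Z, F.Adj (h c) z → z = u) {v : Fin n} (hv : v ∈ Z.erase u) :
    codeg F Z h v = codeg F (Z.erase u) (Function.update h c u) v + 1 := by
  classical
  have hvu := (mem_erase.1 hv).1
  have hvZ := (mem_erase.1 hv).2
  unfold codeg
  rw [← card_insert_of_notMem (a := h c)]
  · congr 1
    ext w
    rw [mem_filter_any, mem_insert, mem_filter_any, cur_step hinj hZ c hu]
    constructor
    · rintro ⟨-, h1, h2, h3⟩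
      by_cases hw : w = h c
      · exact Or.inl hw
      · exact Or.inr ⟨mem_univ _, ⟨h1, hw⟩, h2, h3⟩
    · rintro (rfl | ⟨-, ⟨h1, -⟩, h2, h3⟩)
      · refine ⟨mem_univ _, Or.inr ⟨c, rfl⟩, fun hh => hZ c (hh ▸ hvZ), fun hh => ?_⟩
        exact hvu (huniq v hvZ hh.symm)
      · exact ⟨mem_univ _, h1, h2, h3⟩
  · rw [mem_filter_any, cur_step hinj hZ c hu]
    rintro ⟨-, ⟨-, h1⟩, -⟩
    exact h1 rfl

theorem prod_perm {n : ℕ} {K : Type} [CommRing K] {Z : Finset (Fin n)} {σ : Equiv.Perm (Fin n)}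
    (hσ : ∀ v, v ∉ Z → σ v = v) (u : Fin n) (q : Fin n → K) :
    ∏ w ∈ Z.erase u, q (σ w) = ∏ z ∈ Z.erase (σ u), q z := by
  refine Finset.prod_equiv σ ?_ (fun _ _ => rfl)
  intro w
  rw [mem_erase, mem_erase]
  constructor
  · rintro ⟨h1, h2⟩
    exact ⟨fun hh => h1 (σ.injective hh), fix_maps hσ h2⟩
  · rintro ⟨h1, h2⟩
    refine ⟨fun hh => h1 (by rw [hh]), ?_⟩
    by_contra h3
    rw [hσ w h3] at h2
    exact h3 h2

theorem sum_perm {n : ℕ} {K : Type} [CommRing K] {Z : Finset (Fin n)} {u : Fin n} (hu : u ∈ Z)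
    (P P' : Finset (Equiv.Perm (Fin n))) (hP : ∀ σ, σ ∈ P ↔ ∀ v, v ∉ Z → σ v = v)
    (hP' : ∀ σ, σ ∈ P' ↔ ∀ v, v ∉ Z.erase u → σ v = v) (G : Equiv.Perm (Fin n) → K) :
    ∑ σ ∈ P, G σ = ∑ i ∈ Z, ∑ σ ∈ P', G (Equiv.swap u i * σ) := by
  rw [← Finset.sum_product']
  refine Finset.sum_bij' (fun σ _ => (σ u, Equiv.swap u (σ u) * σ))
    (fun p _ => Equiv.swap u p.1 * p.2) ?_ ?_ ?_ ?_ ?_
  · intro σ hσ
    rw [hP] at hσ
    rw [mem_product, hP']
    refine ⟨fix_maps hσ hu, fun v hv => ?_⟩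
    show Equiv.swap u (σ u) (σ v) = v
    by_cases hvu : v = u
    · rw [hvu, Equiv.swap_apply_right]
    · have hvZ : v ∉ Z := fun hh => hv (mem_erase.2 ⟨hvu, hh⟩)
      rw [hσ v hvZ]
      exact Equiv.swap_apply_of_ne_of_ne hvu (fun hh => hvZ (hh ▸ fix_maps hσ hu))
  · rintro ⟨i, σ⟩ hσ
    rw [mem_product, hP'] at hσ
    rw [hP]
    intro v hv
    show Equiv.swap u i (σ v) = v
    rw [hσ.2 v (fun hh => hv (mem_of_mem_erase hh))]
    exact Equiv.swap_apply_of_ne_of_ne (fun hh => hv (hh ▸ hu)) (fun hh => hv (hh ▸ hσ.1))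
  · intro σ hσ
    show Equiv.swap u (σ u) * (Equiv.swap u (σ u) * σ) = σ
    rw [← mul_assoc, Equiv.swap_mul_self, one_mul]
  · rintro ⟨i, σ⟩ hσ
    rw [mem_product, hP'] at hσ
    have h1 : (Equiv.swap u i * σ) u = i := by
      show Equiv.swap u i (σ u) = i
      rw [hσ.2 u (notMem_erase u Z), Equiv.swap_apply_left]
    show ((Equiv.swap u i * σ) u, Equiv.swap u ((Equiv.swap u i * σ) u) * (Equiv.swap u i * σ)) =
      (i, σ)
    rw [h1, ← mul_assoc, Equiv.swap_mul_self, one_mul]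
  · intro σ hσ
    show G σ = G (Equiv.swap u (σ u) * (Equiv.swap u (σ u) * σ))
    rw [← mul_assoc, Equiv.swap_mul_self, one_mul]

theorem sign_one {n : ℕ} (K : Type) [CommRing K] (σ : Equiv.Perm (Fin n)) :
    (((Equiv.Perm.sign σ : ℤˣ) : ℤ) : K) * (((Equiv.Perm.sign σ : ℤˣ) : ℤ) : K) = 1 := by
  rw [← Int.cast_mul, ← Units.val_mul, Int.units_mul_self]
  simp

theorem PR_empty {n : ℕ} {K : Type} [CommRing K] {T : Fin n → Fin n → Prop}
    (hT : ∀ a b, ¬ T a b) (s : Fin n → K) : PR T s = 1 := by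
  unfold PR
  apply Finset.prod_eq_one
  intro e he
  rw [mem_filter_any] at he
  exact absurd he.2 (hT _ _)

end Pool.Agent.Y972.ZF

namespace Pool.Agent.Y972.ZF

open Finset Pool.Agent.H604R2.LEC Pool.Agent.Y819.ZF

/-- the interpolated polynomial -/
noncomputable def gp {n f : ℕ} {K : Type} [Field K] (h : Fin f → Fin n) (c : Fin f)
    (m : Ed f → ℕ) (s : Fin n → K) : Polynomial K :=
  ∏ e : Ed f, ((if e.1.1 = c then Polynomial.X else Polynomial.C (s (h e.1.1))) -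
    (if e.1.2 = c then Polynomial.X else Polynomial.C (s (h e.1.2)))) ^ m e

theorem gp_eval {n f : ℕ} {K : Type} [Field K] (h : Fin f → Fin n) (c : Fin f)
    (m : Ed f → ℕ) (s : Fin n → K) (t : K) (r : Fin f → K) (hr : r c = t)
    (hr' : ∀ c', c' ≠ c → r c' = s (h c')) :
    (gp h c m s).eval t = ∏ e : Ed f, (r e.1.1 - r e.1.2) ^ m e := by
  unfold gp
  rw [Polynomial.eval_prod]
  refine prod_congr rfl fun e _ => ?_
  rw [Polynomial.eval_pow, Polynomial.eval_sub]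
  congr 1
  congr 1
  · by_cases h1 : e.1.1 = c
    · rw [if_pos h1, Polynomial.eval_X, h1, hr]
    · rw [if_neg h1, Polynomial.eval_C, hr' _ h1]
  · by_cases h1 : e.1.2 = c
    · rw [if_pos h1, Polynomial.eval_X, h1, hr]
    · rw [if_neg h1, Polynomial.eval_C, hr' _ h1]

theorem gp_deg {n f : ℕ} {K : Type} [Field K] (h : Fin f → Fin n) (c : Fin f)
    (m : Ed f → ℕ) (s : Fin n → K) (E : Finset (Ed f)) (hE : ∀ e, e ∈ E ↔ (e.1.1 = c ∨ e.1.2 = c)) :
    (gp h c m s).natDegree ≤ ∑ e ∈ E, m e := by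
  classical
  unfold gp
  refine (Polynomial.natDegree_prod_le _ _).trans ?_
  have h1 : ∑ e ∈ E, m e = ∑ e : Ed f, if e ∈ E then m e else 0 := by
    rw [Finset.sum_ite_mem, Finset.univ_inter]
  rw [h1]
  refine Finset.sum_le_sum fun e _ => ?_
  refine Polynomial.natDegree_pow_le.trans ?_
  by_cases he : e ∈ E
  · rw [if_pos he]
    have h2 : ((if e.1.1 = c then (Polynomial.X : Polynomial K) else Polynomial.C (s (h e.1.1))) -
        (if e.1.2 = c then Polynomial.X else Polynomial.C (s (h e.1.2)))).natDegree ≤ 1 := by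
      refine (Polynomial.natDegree_sub_le _ _).trans (max_le ?_ ?_)
      · split_ifs
        · exact Polynomial.natDegree_X_le
        · rw [Polynomial.natDegree_C]
          exact Nat.zero_le _
      · split_ifs
        · exact Polynomial.natDegree_X_le
        · rw [Polynomial.natDegree_C]
          exact Nat.zero_le _
    calc _ ≤ m e * 1 := Nat.mul_le_mul_left _ h2
      _ = m e := mul_one _
  · rw [if_neg he]
    rw [hE, not_or] at he
    rw [if_neg he.1, if_neg he.2, ← Polynomial.C_sub, Polynomial.natDegree_C, mul_zero]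

theorem stepA (h1 : S_SPLIT) {n f : ℕ} (F : SimpleGraph (Fin n)) (h : Fin f → Fin n)
    (hinj : Function.Injective h) (c : Fin f) (W : Finset (Fin n))
    (hW : ∀ w, w ∈ W ↔ ∃ c', h c' = w ∧ c' ≠ c ∧ ¬ F.Adj (h c) w)
    (E : Finset (Ed f)) (hE : ∀ e, e ∈ E ↔ ((e.1.1 = c ∨ e.1.2 = c) ∧ ¬ F.Adj (h e.1.1) (h e.1.2))) :
    ∃ δ : ℤ, (δ = 1 ∨ δ = -1) ∧ ∀ (K : Type) [CommRing K] (s : Fin n → K),
      ∏ w ∈ W, (s (h c) - s w) = (δ : K) * ∏ e ∈ E, (s (h e.1.1) - s (h e.1.2)) := by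
  let T : Fin n → Fin n → Prop := fun a b => (∃ c', h c' = a) ∧ (∃ c', h c' = b) ∧ a ≠ b ∧
    ¬ F.Adj a b ∧ (a = h c ∨ b = h c)
  have hT : ∀ a b, T a b → T b a := by
    rintro a b ⟨h2, h3, h4, h5, h6⟩
    exact ⟨h3, h2, h4.symm, fun hh => h5 hh.symm, h6.symm⟩
  obtain ⟨δ, hδ, h2⟩ := split' h1 T hT (h c) W (by
    intro w
    rw [hW]
    constructor
    · rintro ⟨c', rfl, h3, h4⟩
      have h5 : h c' ≠ h c := fun hh => h3 (hinj hh)
      exact ⟨⟨⟨c, rfl⟩, ⟨c', rfl⟩, h5.symm, h4, Or.inl rfl⟩, h5⟩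
    · rintro ⟨⟨-, ⟨c', rfl⟩, h3, h4, -⟩, h5⟩
      exact ⟨c', rfl, fun hh => h5 (by rw [hh]), h4⟩) (fun _ _ => False) (by
    intro a b
    constructor
    · exact fun hh => hh.elim
    · rintro ⟨⟨-, -, -, -, h6⟩, h7, h8⟩
      exact h6.elim h7 h8)
  obtain ⟨ε, hε, h3⟩ := edge h hinj T hT (fun a b hab => ⟨hab.1, hab.2.1⟩) E (by
    intro e
    rw [hE]
    constructor
    · rintro ⟨h4, h5⟩
      refine ⟨⟨_, rfl⟩, ⟨_, rfl⟩, fun hh => e.2.ne (hinj hh), h5, ?_⟩
      rcases h4 with h4 | h4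
      · exact Or.inl (by rw [h4])
      · exact Or.inr (by rw [h4])
    · rintro ⟨-, -, -, h5, h6⟩
      refine ⟨?_, h5⟩
      rcases h6 with h6 | h6
      · exact Or.inl (hinj h6)
      · exact Or.inr (hinj h6))
  refine ⟨δ * ε, mul_sign hδ hε, fun K _ s => ?_⟩
  have h4 := h2 K s
  rw [PR_empty (fun _ _ hh => hh), mul_one, h3 K s] at h4
  have h5 := sq_one hδ K
  calc ∏ w ∈ W, (s (h c) - s w) = ((δ : K) * (δ : K)) * ∏ w ∈ W, (s (h c) - s w) := by
        rw [h5, one_mul]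
    _ = (δ : K) * ((δ : K) * ∏ w ∈ W, (s (h c) - s w)) := by ring
    _ = (δ : K) * ((ε : K) * ∏ e ∈ E, (s (h e.1.1) - s (h e.1.2))) := by rw [← h4]
    _ = ((δ * ε : ℤ) : K) * ∏ e ∈ E, (s (h e.1.1) - s (h e.1.2)) := by
        rw [Int.cast_mul]; ring

/-- the statement for given data, with arbitrary index sets -/
def Con {n f : ℕ} (F : SimpleGraph (Fin n)) (Z : Finset (Fin n)) (h : Fin f → Fin n)
    (m : Ed f → ℕ) : Prop :=
  ∀ (P : Finset (Equiv.Perm (Fin n))), (∀ σ, σ ∈ P ↔ ∀ v, v ∉ Z → σ v = v) →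
  ∃ ε : ℤ, (ε = 1 ∨ ε = -1) ∧ ∀ (K : Type) [Field K] (s : Fin n → K), Function.Injective s →
    ∑ σ ∈ P, (((Equiv.Perm.sign σ : ℤˣ) : ℤ) : K) * PR (CT F Z h) (fun v => s (σ v)) =
    (ε : K) * PR (fun a b => a ∈ Z ∧ b ∈ Z) s * ∏ e : Ed f, (s (h e.1.1) - s (h e.1.2)) ^ m e

theorem con_done {n f : ℕ} (F : SimpleGraph (Fin n)) (h : Fin f → Fin n)
    (hinj : Function.Injective h) (m : Ed f → ℕ)
    (hm : ∀ e, (F.Adj (h e.1.1) (h e.1.2) → m e = 0) ∧ (¬ F.Adj (h e.1.1) (h e.1.2) → m e = 1)) :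
    Con F ∅ h m := by
  classical
  intro P hP
  obtain ⟨ε, hε, h3⟩ := edge h hinj (CT F ∅ h) (CT_symm F ∅ h) (by
    rintro a b ⟨h1 | h1, h2 | h2, -⟩
    · exact absurd h1 (notMem_empty _)
    · exact absurd h1 (notMem_empty _)
    · exact absurd h2 (notMem_empty _)
    · exact ⟨h1, h2⟩) (univ.filter fun e => ¬ F.Adj (h e.1.1) (h e.1.2)) (by
    intro e
    rw [mem_filter]
    constructor
    · rintro ⟨-, h1⟩
      exact ⟨Or.inr ⟨_, rfl⟩, Or.inr ⟨_, rfl⟩, h1⟩
    · rintro ⟨-, -, h1⟩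
      exact ⟨mem_univ _, h1⟩)
  refine ⟨ε, hε, fun K _ s _ => ?_⟩
  have hP1 : P = {1} := by
    ext σ
    rw [hP, mem_singleton]
    constructor
    · intro h1
      ext v
      rw [h1 v (notMem_empty v)]
      rfl
    · rintro rfl v _
      rfl
  rw [hP1, sum_singleton, PR_empty (T := fun a b => a ∈ (∅ : Finset (Fin n)) ∧ b ∈ (∅ : Finset (Fin n)))
    (fun a b hh => notMem_empty _ hh.1), mul_one]
  simp only [Equiv.Perm.sign_one, Units.val_one, Int.cast_one, one_mul, Equiv.Perm.coe_one, id_eq]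
  have h4 := h3 K s
  rw [show (fun v => s v) = s from rfl, h4, Finset.prod_filter]
  congr 1
  refine prod_congr rfl fun e _ => ?_
  by_cases h5 : F.Adj (h e.1.1) (h e.1.2)
  · rw [if_neg (not_not.2 h5), (hm e).1 h5, pow_zero]
  · rw [if_pos h5, (hm e).2 h5, pow_one]

theorem con_step (h1 : S_SPLIT) (h2 : S_VSWAP) (h3 : S_LAG) {n f : ℕ} (F : SimpleGraph (Fin n))
    (Z : Finset (Fin n)) (h : Fin f → Fin n) (hinj : Function.Injective h) (hZ : ∀ c, h c ∉ Z)
    (c : Fin f) (u : Fin n) (m m' : Ed f → ℕ) (hu : u ∈ Z) (hadj : F.Adj (h c) u)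
    (huniq : ∀ z ∈ Z, F.Adj (h c) z → z = u)
    (hm : ∀ e, (((e.1.1 = c ∨ e.1.2 = c) ∧ ¬ F.Adj (h e.1.1) (h e.1.2)) → m' e = m e + 1) ∧
      (¬ ((e.1.1 = c ∨ e.1.2 = c) ∧ ¬ F.Adj (h e.1.1) (h e.1.2)) → m' e = m e))
    (hdeg : ∀ E : Finset (Ed f), (∀ e, e ∈ E ↔ (e.1.1 = c ∨ e.1.2 = c)) → ∑ e ∈ E, m e < Z.card)
    (ih : Con F (Z.erase u) (Function.update h c u) m) : Con F Z h m' := by
  classical
  intro P hP
  let P' : Finset (Equiv.Perm (Fin n)) := univ.filter fun σ => ∀ v, v ∉ Z.erase u → σ v = v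
  have hP' : ∀ σ, σ ∈ P' ↔ ∀ v, v ∉ Z.erase u → σ v = v := by
    intro σ
    simp only [P', mem_filter, mem_univ, true_and]
  obtain ⟨ε, hε, ih⟩ := ih P' hP'
  let Wc : Finset (Fin n) := univ.filter fun w => ∃ c', h c' = w ∧ c' ≠ c ∧ ¬ F.Adj (h c) w
  have hWc : ∀ w, w ∈ Wc ↔ ∃ c', h c' = w ∧ c' ≠ c ∧ ¬ F.Adj (h c) w := by
    intro w
    simp only [Wc, mem_filter, mem_univ, true_and]
  let E : Finset (Ed f) := univ.filter fun e => ((e.1.1 = c ∨ e.1.2 = c) ∧ ¬ F.Adj (h e.1.1) (h e.1.2))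
  have hE : ∀ e, e ∈ E ↔ ((e.1.1 = c ∨ e.1.2 = c) ∧ ¬ F.Adj (h e.1.1) (h e.1.2)) := by
    intro e
    simp only [E, mem_filter, mem_univ, true_and]
  obtain ⟨δ3, hδ3, hA⟩ := stepA h1 F h hinj c Wc hWc E hE
  have hdis : Disjoint (Z.erase u) Wc := by
    rw [Finset.disjoint_left]
    intro w hw hw'
    rw [hWc] at hw'
    obtain ⟨c', rfl, -⟩ := hw'
    exact hZ c' (mem_of_mem_erase hw)
  have hxu : h c ≠ u := fun hh => hZ c (hh ▸ hu)
  obtain ⟨δ, hδ, hsp⟩ := split' h1 (CT F Z h) (CT_symm F Z h) (h c) (Z.erase u ∪ Wc) (by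
    intro w
    rw [mem_union, hWc, mem_erase]
    constructor
    · rintro (⟨h4, h5⟩ | ⟨c', rfl, h4, h5⟩)
      · exact ⟨⟨Or.inr ⟨c, rfl⟩, Or.inl h5, fun hh => h4 (huniq w h5 hh)⟩,
          fun hh => hZ c (hh ▸ h5)⟩
      · exact ⟨⟨Or.inr ⟨c, rfl⟩, Or.inr ⟨c', rfl⟩, h5⟩, fun hh => h4 (hinj hh)⟩
    · rintro ⟨⟨-, h4 | ⟨c', rfl⟩, h5⟩, h6⟩
      · exact Or.inl ⟨fun hh => h5 (hh ▸ hadj), h4⟩
      · exact Or.inr ⟨c', rfl, fun hh => h6 (by rw [hh]), h5⟩)
    (CT F (Z.erase u) (Function.update h c u)) (by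
    intro a b
    unfold CT
    rw [cur_step hinj hZ c hu, cur_step hinj hZ c hu]
    tauto)
  obtain ⟨δ2, hδ2, hsp2⟩ := split' h1 (fun a b : Fin n => a ∈ Z ∧ b ∈ Z) (fun a b hab => hab.symm) u
    (Z.erase u) (by
    intro w
    rw [mem_erase]
    tauto) (fun a b : Fin n => a ∈ Z.erase u ∧ b ∈ Z.erase u) (by
    intro a b
    rw [mem_erase, mem_erase]
    tauto)
  refine ⟨δ * ε * δ2 * δ3, mul_sign (mul_sign (mul_sign hδ hε) hδ2) hδ3, fun K _ s hs => ?_⟩
  rw [sum_perm hu P P' hP hP']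
  -- notation
  let A : K := ∏ w ∈ Wc, (s (h c) - s w)
  let g : Polynomial K := gp h c m s
  let Q : Fin n → K := fun i => ∏ z ∈ Z.erase i, (s (h c) - s z)
  let D : Fin n → K := fun i => ∏ z ∈ Z.erase i, (s i - s z)
  have hD : ∀ i, D i ≠ 0 := by
    intro i
    simp only [D]
    rw [Finset.prod_ne_zero_iff]
    intro z hz
    rw [sub_ne_zero]
    exact fun hh => (mem_erase.1 hz).1 (hs hh).symm
  have hinner : ∀ i ∈ Z, ∑ σ ∈ P', (((Equiv.Perm.sign (Equiv.swap u i * σ) : ℤˣ) : ℤ) : K) *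
      PR (CT F Z h) (fun v => s ((Equiv.swap u i * σ) v)) =
      ((δ : K) * (ε : K) * (δ2 : K) * A * PR (fun a b => a ∈ Z ∧ b ∈ Z) s) *
        (Q i / D i * g.eval (s i)) := by
    intro i hi
    have hsw : ∀ v, v ∉ Z → Equiv.swap u i v = v := fun v hv =>
      Equiv.swap_apply_of_ne_of_ne (fun hh => hv (hh ▸ hu)) (fun hh => hv (hh ▸ hi))
    let si : Fin n → K := fun v => s (Equiv.swap u i v)
    have hsi : Function.Injective si := fun a b hab => (Equiv.swap u i).injective (hs hab)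
    have h4 : ∀ σ ∈ P', (((Equiv.Perm.sign (Equiv.swap u i * σ) : ℤˣ) : ℤ) : K) *
        PR (CT F Z h) (fun v => s ((Equiv.swap u i * σ) v)) =
        ((((Equiv.Perm.sign (Equiv.swap u i) : ℤˣ) : ℤ) : K) * (δ : K) * Q i * A) *
        ((((Equiv.Perm.sign σ : ℤˣ) : ℤ) : K) *
          PR (CT F (Z.erase u) (Function.update h c u)) (fun v => si (σ v))) := by
      intro σ hσ
      rw [hP'] at hσ
      have h5 : ∀ v, v ∉ Z → (Equiv.swap u i * σ) v = v := by
        intro v hv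
        show Equiv.swap u i (σ v) = v
        rw [hσ v (fun hh => hv (mem_of_mem_erase hh)), hsw v hv]
      have h6 : (Equiv.swap u i * σ) u = i := by
        show Equiv.swap u i (σ u) = i
        rw [hσ u (notMem_erase u Z), Equiv.swap_apply_left]
      rw [hsp K (fun v => s ((Equiv.swap u i * σ) v)), Finset.prod_union hdis]
      have h7 : ∏ w ∈ Z.erase u, (s ((Equiv.swap u i * σ) (h c)) - s ((Equiv.swap u i * σ) w)) =
          Q i := by
        rw [h5 (h c) (hZ c), prod_perm h5 u (fun w => s (h c) - s w), h6]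
      have h8 : ∏ w ∈ Wc, (s ((Equiv.swap u i * σ) (h c)) - s ((Equiv.swap u i * σ) w)) = A := by
        refine prod_congr rfl fun w hw => ?_
        rw [hWc] at hw
        obtain ⟨c', rfl, -⟩ := hw
        rw [h5 (h c) (hZ c), h5 (h c') (hZ c')]
      rw [h7, h8, Equiv.Perm.sign_mul, Units.val_mul, Int.cast_mul]
      show _ * _ * ((δ : K) * (Q i * A) * PR (CT F (Z.erase u) (Function.update h c u))
        (fun v => s (Equiv.swap u i (σ v)))) = _
      ring
    rw [Finset.sum_congr rfl h4, ← Finset.mul_sum, ih K si hsi]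
    have h9 : ∏ e : Ed f, (si (Function.update h c u e.1.1) - si (Function.update h c u e.1.2)) ^ m e =
        g.eval (s i) := by
      symm
      refine gp_eval h c m s (s i) (fun c' => si (Function.update h c u c')) ?_ ?_
      · show s (Equiv.swap u i (Function.update h c u c)) = s i
        rw [Function.update_self, Equiv.swap_apply_left]
      · intro c' hc'
        show s (Equiv.swap u i (Function.update h c u c')) = s (h c')
        rw [Function.update_of_ne hc', hsw _ (hZ c')]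
    rw [h9]
    have h10 : PR (fun a b => a ∈ Z ∧ b ∈ Z) si =
        (((Equiv.Perm.sign (Equiv.swap u i) : ℤˣ) : ℤ) : K) * PR (fun a b => a ∈ Z ∧ b ∈ Z) s :=
      h2 n Z u i hu hi K s
    have h11 := hsp2 K si
    have h12 : ∏ w ∈ Z.erase u, (si u - si w) = D i := by
      show ∏ w ∈ Z.erase u, (s (Equiv.swap u i u) - s (Equiv.swap u i w)) = D i
      rw [prod_perm hsw u (fun w => s (Equiv.swap u i u) - s w), Equiv.swap_apply_left]
    rw [h12, h10] at h11
    have h13 := sign_one K (Equiv.swap u i)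
    have h14 := sq_one hδ2 K
    have h15 : (((Equiv.Perm.sign (Equiv.swap u i) : ℤˣ) : ℤ) : K) *
        PR (fun a b => a ∈ Z.erase u ∧ b ∈ Z.erase u) si =
        (δ2 : K) * PR (fun a b => a ∈ Z ∧ b ∈ Z) s / D i := by
      rw [eq_div_iff (hD i)]
      calc (((Equiv.Perm.sign (Equiv.swap u i) : ℤˣ) : ℤ) : K) *
          PR (fun a b => a ∈ Z.erase u ∧ b ∈ Z.erase u) si * D i =
          (((Equiv.Perm.sign (Equiv.swap u i) : ℤˣ) : ℤ) : K) * ((δ2 : K) * (δ2 : K)) *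
          PR (fun a b => a ∈ Z.erase u ∧ b ∈ Z.erase u) si * D i := by rw [h14, mul_one]
        _ = (((Equiv.Perm.sign (Equiv.swap u i) : ℤˣ) : ℤ) : K) * (δ2 : K) *
          ((δ2 : K) * D i * PR (fun a b => a ∈ Z.erase u ∧ b ∈ Z.erase u) si) := by ring
        _ = (((Equiv.Perm.sign (Equiv.swap u i) : ℤˣ) : ℤ) : K) * (δ2 : K) *
          ((((Equiv.Perm.sign (Equiv.swap u i) : ℤˣ) : ℤ) : K) *
            PR (fun a b => a ∈ Z ∧ b ∈ Z) s) := by rw [← h11]
        _ = ((((Equiv.Perm.sign (Equiv.swap u i) : ℤˣ) : ℤ) : K) *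
          (((Equiv.Perm.sign (Equiv.swap u i) : ℤˣ) : ℤ) : K)) * ((δ2 : K) *
            PR (fun a b => a ∈ Z ∧ b ∈ Z) s) := by ring
        _ = (δ2 : K) * PR (fun a b => a ∈ Z ∧ b ∈ Z) s := by rw [h13, one_mul]
    calc (((Equiv.Perm.sign (Equiv.swap u i) : ℤˣ) : ℤ) : K) * (δ : K) * Q i * A *
        ((ε : K) * PR (fun a b => a ∈ Z.erase u ∧ b ∈ Z.erase u) si * g.eval (s i)) =
        (δ : K) * Q i * A * (ε : K) * ((((Equiv.Perm.sign (Equiv.swap u i) : ℤˣ) : ℤ) : K) *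
          PR (fun a b => a ∈ Z.erase u ∧ b ∈ Z.erase u) si) * g.eval (s i) := by ring
      _ = (δ : K) * Q i * A * (ε : K) * ((δ2 : K) * PR (fun a b => a ∈ Z ∧ b ∈ Z) s / D i) *
          g.eval (s i) := by rw [h15]
      _ = _ := by ring
  rw [Finset.sum_congr rfl hinner, ← Finset.mul_sum]
  have h16 : g.degree < (Z.card : WithBot ℕ) := by
    have h17 := gp_deg h c m s (univ.filter fun e : Ed f => e.1.1 = c ∨ e.1.2 = c)
      (by intro e; simp only [mem_filter, mem_univ, true_and])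
    have h18 := hdeg (univ.filter fun e : Ed f => e.1.1 = c ∨ e.1.2 = c)
      (by intro e; simp only [mem_filter, mem_univ, true_and])
    refine lt_of_le_of_lt Polynomial.degree_le_natDegree ?_
    exact_mod_cast lt_of_le_of_lt h17 h18
  have h19 := h3 n Z K s hs g h16 (s (h c))
  have h20 : g.eval (s (h c)) = ∏ e : Ed f, (s (h e.1.1) - s (h e.1.2)) ^ m e :=
    gp_eval h c m s (s (h c)) (fun c' => s (h c')) rfl (fun _ _ => rfl)
  have h21 : A = (δ3 : K) * ∏ e ∈ E, (s (h e.1.1) - s (h e.1.2)) := hA K s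
  have h22 : ∏ e : Ed f, (s (h e.1.1) - s (h e.1.2)) ^ m' e =
      (∏ e ∈ E, (s (h e.1.1) - s (h e.1.2))) * ∏ e : Ed f, (s (h e.1.1) - s (h e.1.2)) ^ m e := by
    have h23 : ∏ e ∈ E, (s (h e.1.1) - s (h e.1.2)) =
        ∏ e : Ed f, if e ∈ E then (s (h e.1.1) - s (h e.1.2)) else 1 := by
      rw [Finset.prod_ite_mem, Finset.univ_inter]
    rw [h23, ← prod_mul_distrib]
    refine prod_congr rfl fun e _ => ?_
    by_cases he : e ∈ E
    · rw [if_pos he, (hm e).1 ((hE e).1 he), pow_succ, mul_comm]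
    · rw [if_neg he, (hm e).2 (fun hh => he ((hE e).2 hh)), one_mul]
  have h24 : ∑ i ∈ Z, Q i / D i * g.eval (s i) = g.eval (s (h c)) := h19
  rw [h24, h20, h21, h22]
  push_cast
  ring

end Pool.Agent.Y972.ZF

namespace Pool.Agent.Y972.ZF

open Finset Pool.Agent.H604R2.LEC Pool.Agent.Y819.ZF

theorem con_forces (h1 : S_SPLIT) (h2 : S_VSWAP) (h3 : S_LAG) (h4 : S_DEG) {n f : ℕ}
    (F : SimpleGraph (Fin n)) (Z : Finset (Fin n)) (h : Fin f → Fin n) (m : Ed f → ℕ)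
    (hF : Forces F Z h m) : Function.Injective h → (∀ c, h c ∉ Z) →
    (∀ v ∈ Z, codeg F Z h v = Z.card - 1) → Con F Z h m := by
  classical
  induction hF with
  | done h =>
    intro hinj _ _
    refine con_done F h hinj _ fun e => ⟨fun hh => ?_, fun hh => ?_⟩
    · simp only [if_pos hh]
    · simp only [if_neg hh]
  | step Z h c u m hu hadj huniq hm ih =>
    intro hinj hZ hcod
    have hi := inj_step hinj hZ c hu
    have hn := fun c' => notMem_step hZ c (u := u) c'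
    have hc : ∀ v ∈ Z.erase u, codeg F (Z.erase u) (Function.update h c u) v =
        (Z.erase u).card - 1 := by
      intro v hv
      have h5 := codeg_v hinj hZ c hu huniq hv
      rw [hcod v (mem_of_mem_erase hv)] at h5
      rw [card_erase_of_mem hu]
      omega
    have ih' := ih hi hn hc
    refine con_step h1 h2 h3 F Z h hinj hZ c u m _ hu hadj huniq ?_ ?_ ih'
    · intro e
      refine ⟨fun hh => ?_, fun hh => ?_⟩
      · simp only [if_pos hh]
      · simp only [if_neg hh, add_zero]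
    · intro E hE
      have h5 := h4 (Fin n) f F (Z.erase u) (Function.update h c u) m hi hn hc hm c
      rw [Function.update_self, codeg_u hinj hZ c hu hadj, hcod u hu] at h5
      have h6 : ∃ E' : Finset (Ed f), (∀ e, e ∈ E' ↔ (e.1.1 = c ∨ e.1.2 = c)) ∧
          ∑ e ∈ E', m e = Z.card - 1 :=
        ⟨_, fun e => by rw [mem_filter_any]; simp, h5⟩
      obtain ⟨E', hE', h7⟩ := h6
      have h8 : E = E' := by
        ext e
        rw [hE, hE']
      rw [h8, h7]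
      have h9 := card_pos.2 ⟨u, hu⟩
      omega

/-- ZF7 -/
theorem main (h1 : S_SPLIT) (h2 : S_VSWAP) (h3 : S_LAG) (h4 : S_DEG) : S_IDB := by
  classical
  intro n f F Z h m hinj hZ hcod hF
  have h5 := con_forces h1 h2 h3 h4 F Z h m hF hinj hZ hcod
  obtain ⟨ε, hε, h6⟩ := h5 (univ.filter fun σ => ∀ v, v ∉ Z → σ v = v)
    (fun σ => by simp only [mem_filter, mem_univ, true_and])
  refine ⟨ε, hε, fun K _ s hs => ?_⟩
  rw [← h6 K s hs]
  refine sum_congr ?_ fun _ _ => rfl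
  ext σ
  rw [mem_filter_any]

end Pool.Agent.Y972.ZF

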