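import Pool.Agent.Y819.ZF.Stm

/-!
# Project ZF: splitting off the edges at a vertex, swapping two variables
-/

set_option autoImplicit false
set_option linter.all false

namespace Pool.Agent.Y972.ZF

open Finset Pool.Agent.H604R2.LEC Pool.Agent.Y819.ZF

theorem mem_filter_any {α : Type*} {p : α → Prop} {inst : DecidablePred p} {s : Finset α}
    {a : α} : a ∈ @Finset.filter α p inst s ↔ a ∈ s ∧ p a :=
  @Finset.mem_filter α p inst s a

/-- SPLIT -/
theorem split : S_SPLIT := by
  classical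
  intro n T hT x
  let W : Finset (Fin n) := univ.filter (fun w => T x w ∧ w ≠ x)
  let δ : ℤ := ∏ w ∈ W, (if w < x then -1 else 1)
  refine ⟨δ, ?_, ?_⟩
  · refine Finset.prod_induction (fun w => if w < x then (-1 : ℤ) else 1)
      (fun d => d = 1 ∨ d = -1) ?_ (Or.inl rfl) ?_
    · rintro a b (rfl | rfl) (rfl | rfl) <;> simp
    · intro w _
      by_cases hw : w < x <;> simp [hw]
  · intro K _ s
    have hδ : ((δ : ℤ) : K) = ∏ w ∈ W, (if w < x then (-1 : K) else 1) := by
      simp only [δ]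
      rw [Int.cast_prod]
      refine prod_congr rfl fun w _ => ?_
      split_ifs <;> simp
    have h1 : PR T s = (∏ e ∈ (univ.filter (fun e : Ed n => T e.1.1 e.1.2)).filter
        (fun e => e.1.1 = x ∨ e.1.2 = x), (s e.1.1 - s e.1.2)) *
        ∏ e ∈ (univ.filter (fun e : Ed n => T e.1.1 e.1.2)).filter
        (fun e => ¬ (e.1.1 = x ∨ e.1.2 = x)), (s e.1.1 - s e.1.2) := by
      unfold PR
      rw [Finset.prod_filter_mul_prod_filter_not]
    have h2 : ∏ e ∈ (univ.filter (fun e : Ed n => T e.1.1 e.1.2)).filter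
        (fun e => ¬ (e.1.1 = x ∨ e.1.2 = x)), (s e.1.1 - s e.1.2) =
        PR (fun a b => T a b ∧ a ≠ x ∧ b ≠ x) s := by
      unfold PR
      rw [filter_filter]
      refine prod_congr ?_ fun _ _ => rfl
      ext e
      simp only [mem_filter, mem_univ, true_and, not_or, ne_eq]
    have h3 : ∏ e ∈ (univ.filter (fun e : Ed n => T e.1.1 e.1.2)).filter
        (fun e => e.1.1 = x ∨ e.1.2 = x), (s e.1.1 - s e.1.2) =
        ∏ w ∈ W, ((if w < x then (-1 : K) else 1) * (s x - s w)) := by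
      refine Finset.prod_bij (fun e _ => if e.1.1 = x then e.1.2 else e.1.1) ?_ ?_ ?_ ?_
      · intro e he
        simp only [mem_filter, mem_univ, true_and] at he
        simp only [W, mem_filter, mem_univ, true_and]
        have hlt := e.2
        split_ifs with h
        · refine ⟨?_, ?_⟩
          · rw [← h]; exact he.1
          · rw [← h]; exact hlt.ne'
        · have h' : e.1.2 = x := he.2.resolve_left h
          refine ⟨?_, h⟩
          rw [← h']
          exact hT _ _ he.1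
      · intro e he e' he' hee
        simp only [mem_filter, mem_univ, true_and] at he he'
        have hlt := e.2
        have hlt' := e'.2
        apply Subtype.ext
        split_ifs at hee with h h' h'
        · exact Prod.ext (h.trans h'.symm) hee
        · have h2 : e'.1.2 = x := he'.2.resolve_left h'
          rw [h, hee] at hlt
          rw [h2] at hlt'
          exact absurd hlt (lt_asymm hlt')
        · have h2 : e.1.2 = x := he.2.resolve_left h
          rw [h', ← hee] at hlt'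
          rw [h2] at hlt
          exact absurd hlt (lt_asymm hlt')
        · have h2 : e.1.2 = x := he.2.resolve_left h
          have h3 : e'.1.2 = x := he'.2.resolve_left h'
          exact Prod.ext hee (h2.trans h3.symm)
      · intro w hw
        simp only [W, mem_filter, mem_univ, true_and] at hw
        rcases lt_or_gt_of_ne hw.2 with h | h
        · refine ⟨⟨(w, x), h⟩, ?_, ?_⟩
          · simp only [mem_filter, mem_univ, true_and]
            exact ⟨hT _ _ hw.1, Or.inr trivial⟩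
          · simp only
            rw [if_neg hw.2]
        · refine ⟨⟨(x, w), h⟩, ?_, ?_⟩
          · simp only [mem_filter, mem_univ, true_and]
            exact ⟨hw.1, Or.inl trivial⟩
          · simp only [if_true]
      · intro e he
        simp only [mem_filter, mem_univ, true_and] at he
        have hlt := e.2
        split_ifs with h h1 h1
        · rw [h] at hlt
          exact absurd hlt (lt_asymm h1)
        · rw [h, one_mul]
        · have h2 : e.1.2 = x := he.2.resolve_left h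
          rw [h2]
          ring
        · have h2 : e.1.2 = x := he.2.resolve_left h
          rw [h2] at hlt
          exact absurd hlt h1
    rw [h1, h2, h3, prod_mul_distrib, ← hδ]

/-- VSWAP -/
theorem vswap (h : S_SPLIT) : S_VSWAP := by
  classical
  intro n Z u i hu hi K _ s
  by_cases hui : u = i
  · subst hui
    rw [Equiv.swap_self]
    simp
  · obtain ⟨d1, -, hd1⟩ := h n (fun a b => a ∈ Z ∧ b ∈ Z) (fun a b h => ⟨h.2, h.1⟩) u
    obtain ⟨d2, -, hd2⟩ := h n (fun a b => (a ∈ Z ∧ b ∈ Z) ∧ a ≠ u ∧ b ≠ u)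
      (fun a b h => ⟨⟨h.1.2, h.1.1⟩, h.2.2, h.2.1⟩) i
    let W : Finset (Fin n) := univ.filter fun w => w ∈ Z ∧ w ≠ u ∧ w ≠ i
    have hWi : i ∉ W := by simp [W]
    have e1 : ∀ (t : Fin n → K) (S : Finset (Fin n)),
        (∀ w, w ∈ S ↔ (u ∈ Z ∧ w ∈ Z) ∧ w ≠ u) →
        (∏ w ∈ S, (t u - t w)) = (t u - t i) * ∏ w ∈ W, (t u - t w) := by
      intro t S hS
      have hSi : S = insert i W := by
        ext w
        rw [hS]
        simp only [W, mem_filter, mem_univ, true_and, mem_insert]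
        constructor
        · rintro ⟨⟨-, h1⟩, h2⟩
          by_cases hw : w = i
          · exact Or.inl hw
          · exact Or.inr ⟨h1, h2, hw⟩
        · rintro (rfl | ⟨h1, h2, -⟩)
          · exact ⟨⟨hu, hi⟩, fun h => hui h.symm⟩
          · exact ⟨⟨hu, h1⟩, h2⟩
      rw [hSi, prod_insert hWi]
    have e2 : ∀ (S : Finset (Fin n)),
        (∀ w, w ∈ S ↔ ((i ∈ Z ∧ w ∈ Z) ∧ i ≠ u ∧ w ≠ u) ∧ w ≠ i) → S = W := by
      intro S hS
      ext w
      rw [hS]
      simp only [W, mem_filter, mem_univ, true_and]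
      constructor
      · rintro ⟨⟨⟨-, h1⟩, -, h2⟩, h3⟩
        exact ⟨h1, h2, h3⟩
      · rintro ⟨h1, h2, h3⟩
        exact ⟨⟨⟨hi, h1⟩, fun h => hui h.symm, h2⟩, h3⟩
    have hfull : ∀ t : Fin n → K, PR (fun a b => a ∈ Z ∧ b ∈ Z) t =
        (d1 : K) * ((t u - t i) * ∏ w ∈ W, (t u - t w)) * ((d2 : K) * (∏ w ∈ W, (t i - t w)) *
          PR (fun a b => ((a ∈ Z ∧ b ∈ Z) ∧ a ≠ u ∧ b ≠ u) ∧ a ≠ i ∧ b ≠ i) t) := by
      intro t
      obtain ⟨S1, hS1, h1⟩ : ∃ S : Finset (Fin n), (∀ w, w ∈ S ↔ (u ∈ Z ∧ w ∈ Z) ∧ w ≠ u) ∧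
          PR (fun a b => a ∈ Z ∧ b ∈ Z) t = (d1 : K) * (∏ w ∈ S, (t u - t w)) *
            PR (fun a b => (a ∈ Z ∧ b ∈ Z) ∧ a ≠ u ∧ b ≠ u) t :=
        ⟨_, fun w => by rw [mem_filter_any]; simp, hd1 K t⟩
      obtain ⟨S2, hS2, h2⟩ : ∃ S : Finset (Fin n),
          (∀ w, w ∈ S ↔ ((i ∈ Z ∧ w ∈ Z) ∧ i ≠ u ∧ w ≠ u) ∧ w ≠ i) ∧
          PR (fun a b => (a ∈ Z ∧ b ∈ Z) ∧ a ≠ u ∧ b ≠ u) t =
            (d2 : K) * (∏ w ∈ S, (t i - t w)) *
            PR (fun a b => ((a ∈ Z ∧ b ∈ Z) ∧ a ≠ u ∧ b ≠ u) ∧ a ≠ i ∧ b ≠ i) t :=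
        ⟨_, fun w => by rw [mem_filter_any]; simp, hd2 K t⟩
      rw [h1, h2, e1 t S1 hS1, e2 S2 hS2]
    have hrest : PR (fun a b => ((a ∈ Z ∧ b ∈ Z) ∧ a ≠ u ∧ b ≠ u) ∧ a ≠ i ∧ b ≠ i)
        (fun v => s (Equiv.swap u i v)) =
        PR (fun a b => ((a ∈ Z ∧ b ∈ Z) ∧ a ≠ u ∧ b ≠ u) ∧ a ≠ i ∧ b ≠ i) s := by
      unfold PR
      refine prod_congr rfl fun e he => ?_
      rw [mem_filter_any] at he
      have h3 := he.2
      simp only
      rw [Equiv.swap_apply_of_ne_of_ne h3.1.2.1 h3.2.1,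
        Equiv.swap_apply_of_ne_of_ne h3.1.2.2 h3.2.2]
    have hW1 : ∏ w ∈ W, (s i - s (Equiv.swap u i w)) = ∏ w ∈ W, (s i - s w) := by
      refine prod_congr rfl fun w hw => ?_
      have := (mem_filter.1 hw).2
      rw [Equiv.swap_apply_of_ne_of_ne this.2.1 this.2.2]
    have hW2 : ∏ w ∈ W, (s u - s (Equiv.swap u i w)) = ∏ w ∈ W, (s u - s w) := by
      refine prod_congr rfl fun w hw => ?_
      have := (mem_filter.1 hw).2
      rw [Equiv.swap_apply_of_ne_of_ne this.2.1 this.2.2]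
    rw [hfull (fun v => s (Equiv.swap u i v)), hfull s, hrest, Equiv.Perm.sign_swap hui]
    simp only [Equiv.swap_apply_left, Equiv.swap_apply_right, hW1, hW2]
    push_cast
    ring

end Pool.Agent.Y972.ZF
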